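import Pool.Agent.H33.HH.TC

/-!
# Row NRM: norms and units of imaginary quadratic fields
-/

set_option autoImplicit false

open NumberField Complex Filter Topology MeasureTheory
open scoped ContDiff nonZeroDivisors

namespace Pool.Agent.H46.HH

open Pool.Agent.H33.HH Pool.Agent.H28.RC Pool.Agent.H37.CV

section places

variable (K : Type) [Field K] [NumberField K] [IQ K]

open NumberField.InfinitePlace in
theorem nr : nrRealPlaces K = 0 ∧ nrComplexPlaces K = 1 := by
  have h1 := card_add_two_mul_card_eq_rank K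
  have h2 := sign_discr K
  have h3 : (discr K).sign = -1 := Int.sign_eq_neg_one_of_neg IQ.neg
  rw [IQ.two (K := K)] at h1
  rw [h3] at h2
  have h4 : nrComplexPlaces K ≤ 1 := by omega
  rcases Nat.le_one_iff_eq_zero_or_eq_one.1 h4 with h | h
  · rw [h] at h2
    norm_num at h2
  · exact ⟨by omega, h⟩

theorem itc : IsTotallyComplex K := nrRealPlaces_eq_zero_iff.1 (nr K).1

theorem sub : Subsingleton (InfinitePlace K) := by
  have h := InfinitePlace.card_eq_nrRealPlaces_add_nrComplexPlaces (K := K)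
  rw [(nr K).1, (nr K).2] at h
  exact Fintype.card_le_one_iff_subsingleton.1 (by omega)

theorem place (w : InfinitePlace K) (x : K) : w x = ‖em K x‖ := by
  haveI := sub K
  rw [Subsingleton.elim w (InfinitePlace.mk (em K))]
  rfl

theorem sqn (x : K) : ‖em K x‖ ^ 2 = ((|Algebra.norm ℚ x| : ℚ) : ℝ) := by
  haveI := sub K
  haveI := itc K
  have h := InfinitePlace.prod_eq_abs_norm x
  rw [Fintype.prod_subsingleton _ (InfinitePlace.mk (em K)), IsTotallyComplex.mult_eq,
    place K] at h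
  exact h

theorem nun (u : (𝓞 K)ˣ) : ‖em K (u : K)‖ = 1 := by
  have h := sqn K (u : K)
  rw [NumberField.Units.norm] at h
  have h2 : ‖em K (u : K)‖ ^ 2 = 1 := by rw [h]; norm_num
  have h0 : 0 ≤ ‖em K (u : K)‖ := norm_nonneg _
  nlinarith

theorem fin : Finite (𝓞 K)ˣ := by
  have h : ∀ u : (𝓞 K)ˣ, u ∈ NumberField.Units.torsion K := by
    intro u
    rw [NumberField.Units.mem_torsion]
    intro w
    rw [place K, nun K]
  exact Finite.of_injective (fun u => (⟨u, h u⟩ : NumberField.Units.torsion K))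
    fun a b hab => by simpa using hab

theorem low (x : K) (I : FractionalIdeal (𝓞 K)⁰ K) (hx : x ∈ I) (h0 : x ≠ 0) :
    ((FractionalIdeal.absNorm I : ℚ) : ℝ) ≤ ‖em K x‖ ^ 2 := by
  rw [sqn K x, ← FractionalIdeal.absNorm_span_singleton (𝓞 K) x]
  have hI : I ≠ 0 := by
    rintro rfl
    exact h0 (by simpa using hx)
  have h1 : FractionalIdeal.spanSingleton (𝓞 K)⁰ x ≤ I := by
    rw [FractionalIdeal.spanSingleton_le_iff_mem]
    exact hx
  have h2 : FractionalIdeal.spanSingleton (𝓞 K)⁰ x * I⁻¹ ≤ 1 := by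
    calc _ ≤ I * I⁻¹ := by gcongr
      _ = 1 := mul_inv_cancel₀ hI
  obtain ⟨J, hJ⟩ := FractionalIdeal.le_one_iff_exists_coeIdeal.1 h2
  have h3 : FractionalIdeal.spanSingleton (𝓞 K)⁰ x = (J : FractionalIdeal (𝓞 K)⁰ K) * I := by
    rw [hJ, mul_assoc, inv_mul_cancel₀ hI, mul_one]
  have hJ0 : J ≠ ⊥ := by
    rintro rfl
    apply h0
    have h4 : FractionalIdeal.spanSingleton (𝓞 K)⁰ x = 0 := by rw [h3]; simp
    exact FractionalIdeal.spanSingleton_eq_zero_iff.1 h4
  rw [h3, map_mul, FractionalIdeal.coeIdeal_absNorm]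
  have h5 : 1 ≤ Ideal.absNorm J := Nat.one_le_iff_ne_zero.2 (by
    rwa [Ne, Ideal.absNorm_eq_zero_iff])
  have h6 : (1 : ℚ) ≤ (Ideal.absNorm J : ℚ) := by exact_mod_cast h5
  have h7 := FractionalIdeal.absNorm_nonneg I
  have h8 : FractionalIdeal.absNorm I ≤ (Ideal.absNorm J : ℚ) * FractionalIdeal.absNorm I := by
    nlinarith
  exact_mod_cast h8

theorem muln (γ : K) (I J : Ideal (𝓞 K)) (h : Mu γ I J) : ‖em K γ‖ ^ 2 * nm I = nm J := by
  have h1 := congrArg FractionalIdeal.absNorm h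
  rw [map_mul, FractionalIdeal.absNorm_span_singleton, FractionalIdeal.coeIdeal_absNorm,
    FractionalIdeal.coeIdeal_absNorm] at h1
  rw [sqn K γ]
  unfold nm
  exact_mod_cast h1

end places

theorem pf_NRM : T_NRM := by
  intro K _ _ _
  haveI := fin K
  refine ⟨itc K, ?_, fin K, nun K, sqn K, low K, muln K⟩
  unfold wu
  exact_mod_cast Nat.card_pos

end Pool.Agent.H46.HH
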